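import Pool.Agent.H186.KS.Spec

/-!
# Orthogonality of characters over sign patterns (task B2)
-/

set_option autoImplicit false

open Finset Filter

namespace Pool.Agent.H726.KS

open Pool.Agent.Y117.SG Pool.Agent.H186.KS

lemma zl_both {n : ℕ} (α β : Fin n → Bool) (i : Fin n) :
    zl α (i, true) * zl β (i, true) + zl α (i, false) * zl β (i, false) = 2 * yy α β i := by
  unfold zl yy
  cases h1 : α i <;> cases h2 : β i <;> norm_num

lemma zl_one {n : ℕ} (α : Fin n → Bool) (i : Fin n) : zl α (i, true) + zl α (i, false) = 0 := by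
  unfold zl
  cases h1 : α i <;> norm_num

theorem s_orth : S_orth := by
  intro n I S S' hS hS' α β
  set g : Fin n → Bool → ℝ := fun i b =>
    (if i ∈ S then zl α (i, b) else 1) * (if i ∈ S' then zl β (i, b) else 1) with hg
  have key : ∀ T ∈ I.powerset, (∏ i ∈ S, zl α (i, decide (i ∈ T))) *
      (∏ i ∈ S', zl β (i, decide (i ∈ T))) = (∏ i ∈ T, g i true) * ∏ i ∈ I \ T, g i false := by
    intro T hT
    rw [mem_powerset] at hT
    have e1 : ∏ i ∈ S, zl α (i, decide (i ∈ T)) =
        ∏ i ∈ I, (if i ∈ S then zl α (i, decide (i ∈ T)) else 1) := by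
      rw [Finset.prod_ite_mem, inter_eq_right.2 hS]
    have e2 : ∏ i ∈ S', zl β (i, decide (i ∈ T)) =
        ∏ i ∈ I, (if i ∈ S' then zl β (i, decide (i ∈ T)) else 1) := by
      rw [Finset.prod_ite_mem, inter_eq_right.2 hS']
    rw [e1, e2, ← prod_mul_distrib, ← Finset.prod_sdiff hT, mul_comm]
    refine congrArg₂ (· * ·) ?_ ?_
    · refine prod_congr rfl fun i hi => ?_
      simp [hg, hi]
    · refine prod_congr rfl fun i hi => ?_
      simp [hg, (mem_sdiff.1 hi).2]
  rw [sum_congr rfl key, ← prod_add]
  have hval : ∀ i, g i true + g i false =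
      if i ∈ S then (if i ∈ S' then 2 * yy α β i else 0) else (if i ∈ S' then 0 else 2) := by
    intro i
    simp only [hg]
    by_cases h1 : i ∈ S
    · by_cases h2 : i ∈ S'
      · simp only [h1, h2, if_true]
        exact zl_both α β i
      · simp only [h1, h2, if_true, if_false, mul_one]
        exact zl_one α i
    · by_cases h2 : i ∈ S'
      · simp only [h1, h2, if_true, if_false, one_mul]
        exact zl_one β i
      · simp only [h1, h2, if_false]
        norm_num
  rw [prod_congr rfl fun i _ => hval i]
  by_cases hSS : S = S'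
  · subst hSS
    rw [if_pos rfl]
    have e3 : ∀ i, (if i ∈ S then (if i ∈ S then 2 * yy α β i else 0) else
        (if i ∈ S then (0:ℝ) else 2)) = 2 * (if i ∈ S then yy α β i else 1) := by
      intro i
      by_cases h1 : i ∈ S
      · simp only [h1, if_true]
      · simp only [h1, if_false, mul_one]
    rw [prod_congr rfl fun i _ => e3 i, prod_mul_distrib, prod_const, Finset.prod_ite_mem,
      inter_eq_right.2 hS]
  · rw [if_neg hSS]
    have hex : ∃ i, ¬ (i ∈ S ↔ i ∈ S') := by
      by_contra hc
      push Not at hc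
      exact hSS (Finset.ext fun i => hc i)
    obtain ⟨i, hi⟩ := hex
    by_cases h1 : i ∈ S
    · have h2 : i ∉ S' := fun h => hi ⟨fun _ => h, fun _ => h1⟩
      exact prod_eq_zero (hS h1) (by simp only [h1, h2, if_true, if_false])
    · have h2 : i ∈ S' := by
        by_contra h
        exact hi ⟨fun h' => absurd h' h1, fun h' => absurd h' h⟩
      exact prod_eq_zero (hS' h2) (by simp only [h1, h2, if_true, if_false])

end Pool.Agent.H726.KS
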